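import Mathlib
import Pool.Agent.N698.VT.Main

/-!
# Lower bound for the exceptional set and the constant in the `n`-term abc conjecture over number
fields

The hyperplane `Z_1 + ⋯ + Z_N = 0` of `ℙ^(N-1)` is a projective space `ℙ^n`, `n = N - 2`, and its
`N = n + 2` coordinate hyperplanes are in general position.  For this divisor `D` (and no further
hypersurfaces, `t = 0`) the truncated counting function below is `[K : ℚ] rad(P)` up to the finitely
many primes in `S`, and `Height.logHeight` is `[K : ℚ] h(P)` up to a bounded error.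

The proof is in the helper files `Pool.Agent.N698.VT` (author: helper698).
-/

set_option autoImplicit false

namespace Pool.Agent.Results.MP_7475bd_nt.ExceptionalSetLowerBound

open NumberField IsDedekindDomain

/-- The local height at the prime `v` of the point with homogeneous coordinates `x`, relative to
the hyperplane `∑ j, l j * x j = 0`. -/
noncomputable def weil {K : Type} [Field K] [NumberField K] {n : ℕ}
    (v : HeightOneSpectrum (𝓞 K)) (l x : Fin (n + 1) → K) : ℝ :=
  Real.log ((⨆ j, FinitePlace.mk v (l j)) * (⨆ j, FinitePlace.mk v (x j)) /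
    FinitePlace.mk v (∑ j, l j * x j))

/-- The local height at the prime `v` of the point with homogeneous coordinates `x`, relative to
the hypersurface `F = 0` of degree `e`. -/
noncomputable def weilForm {K : Type} [Field K] [NumberField K] {n : ℕ}
    (v : HeightOneSpectrum (𝓞 K)) (F : MvPolynomial (Fin (n + 1)) K) (e : ℕ)
    (x : Fin (n + 1) → K) : ℝ :=
  Real.log ((⨆ a : F.support, FinitePlace.mk v (F.coeff a)) * (⨆ j, FinitePlace.mk v (x j)) ^ e /
    FinitePlace.mk v (MvPolynomial.eval x F))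

/-- The truncated counting function, relative to the sum `D` of the hyperplanes
`∑ j, L i j * x j = 0` and of the hypersurfaces `F j = 0` of degree `e j`, of the `K`-rational point
with homogeneous coordinates `x`: the sum of `log N(v)` over the primes `v` outside `S` at which the
local height relative to `D` is positive. -/
noncomputable def truncated {K : Type} [Field K] [NumberField K] {n t : ℕ}
    (S : Set (HeightOneSpectrum (𝓞 K))) (L : Fin (n + 2) → Fin (n + 1) → K)
    (F : Fin t → MvPolynomial (Fin (n + 1)) K) (e : Fin t → ℕ) (x : Fin (n + 1) → K) : ℝ :=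
  ∑ᶠ v ∈ {v : HeightOneSpectrum (𝓞 K) |
      v ∉ S ∧ 0 < ∑ i, weil v (L i) x + ∑ j, weilForm v (F j) (e j) x},
    Real.log (Ideal.absNorm v.asIdeal : ℝ)

/-- Let `D` be the sum of `n + 2` hyperplanes in general position and of arbitrary further
hypersurfaces `F j = 0` of degree `e j` in `ℙ^n` over a number field `K`, `n ≥ 1`, so that
`h_{K_X + D} = (1 + ∑ e j) h`.

(1) For every `c < 4` and all large `H` the following holds. If `G` is a nonzero form of degree `δ`
(with coefficients in some extension of `K`) and `E ≥ 0` is such that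
`E + [K : ℚ] log max(δ, 1) ≤ c √([K : ℚ] H) / log H`, then there is a point `P` in `ℙ^n(K)` off `D`
and off `G = 0`, of height at most `H`, with `N_S^{(1)}(D, P) + E ≤ h_{K_X + D}(P)`.

(2) Hence for every `c < 1` and all small `ε > 0`: if the truncated Vojta inequality
`h_{K_X + D}(P) ≤ N_S^{(1)}(D, P) + ε h(P) + C` with `C ≥ 0` holds for all `P` in `ℙ^n(K)` off `D`
and off the zero set of a nonzero form `G` of degree `δ`, then
`C + [K : ℚ] log max(δ, 1) ≥ c [K : ℚ] / (ε log(1 / ε) ^ 2)`. -/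
theorem result :
    ∀ (K : Type) [Field K] [NumberField K] (n : ℕ), 1 ≤ n →
      ∀ L : Fin (n + 2) → Fin (n + 1) → K,
      (∀ I : Finset (Fin (n + 2)), I.card = n + 1 → LinearIndependent K (fun i : I => L i)) →
      ∀ (t : ℕ) (F : Fin t → MvPolynomial (Fin (n + 1)) K) (e : Fin t → ℕ),
      (∀ j, F j ≠ 0) → (∀ j, (F j).IsHomogeneous (e j)) →
      (∀ c : ℝ, c < 4 → ∃ H₀ : ℝ, ∀ (S : Set (HeightOneSpectrum (𝓞 K)))
        (Ω : Type) [Field Ω] [Algebra K Ω] (G : MvPolynomial (Fin (n + 1)) Ω) (δ : ℕ),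
        G ≠ 0 → G.IsHomogeneous δ → ∀ H E : ℝ, H₀ ≤ H → 0 ≤ E →
        E + Module.finrank ℚ K * Real.log (max δ 1) ≤
          c * √(Module.finrank ℚ K * H) / Real.log H →
        ∃ x : Fin (n + 1) → K, (∀ i, ∑ j, L i j * x j ≠ 0) ∧
          (∀ j, MvPolynomial.eval x (F j) ≠ 0) ∧
          MvPolynomial.eval (fun j => algebraMap K Ω (x j)) G ≠ 0 ∧ Height.logHeight x ≤ H ∧
          truncated S L F e x + E ≤ (1 + ∑ j, (e j : ℝ)) * Height.logHeight x) ∧
      (∀ c : ℝ, c < 1 → ∃ ε₀ : ℝ, 0 < ε₀ ∧ ∀ (S : Set (HeightOneSpectrum (𝓞 K)))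
        (Ω : Type) [Field Ω] [Algebra K Ω] (G : MvPolynomial (Fin (n + 1)) Ω) (δ : ℕ),
        G ≠ 0 → G.IsHomogeneous δ → ∀ ε C : ℝ, 0 < ε → ε ≤ ε₀ → 0 ≤ C →
        (∀ x : Fin (n + 1) → K, (∀ i, ∑ j, L i j * x j ≠ 0) →
          (∀ j, MvPolynomial.eval x (F j) ≠ 0) →
          MvPolynomial.eval (fun j => algebraMap K Ω (x j)) G ≠ 0 →
          (1 + ∑ j, (e j : ℝ)) * Height.logHeight x ≤
            truncated S L F e x + ε * Height.logHeight x + C) →
        c * Module.finrank ℚ K / (ε * Real.log (1 / ε) ^ 2) ≤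
          C + Module.finrank ℚ K * Real.log (max δ 1)) := by
  intro K _ _ n hn L hgp t F e hF0 hF
  have hcond : ∀ (x : Fin (n + 1) → K), (∀ i, ∑ j, L i j * x j ≠ 0) →
      (∀ j, MvPolynomial.eval x (F j) ≠ 0) → ∀ v : HeightOneSpectrum (𝓞 K),
      0 < ∑ i, weil v (L i) x + ∑ j, weilForm v (F j) (e j) x →
      Pool.Agent.N698.VT.Cond L F e x v := by
    intro x hLx hFx v hv
    by_contra hcon
    unfold Pool.Agent.N698.VT.Cond at hcon
    push Not at hcon
    obtain ⟨hc1, hc2⟩ := hcon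
    refine absurd hv (not_lt.2 (add_nonpos (Finset.sum_nonpos fun i _ => ?_)
      (Finset.sum_nonpos fun j _ => ?_)))
    · have h0 : 0 < FinitePlace.mk v (∑ j, L i j * x j) := FinitePlace.pos_iff.2 (hLx i)
      refine Real.log_nonpos ?_ ?_
      · refine div_nonneg (mul_nonneg ?_ ?_) h0.le
        · exact Real.iSup_nonneg fun j => apply_nonneg _ _
        · exact Real.iSup_nonneg fun j => apply_nonneg _ _
      · rw [div_le_one h0]
        exact hc1 i
    · have h0 : 0 < FinitePlace.mk v (MvPolynomial.eval x (F j)) := FinitePlace.pos_iff.2 (hFx j)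
      refine Real.log_nonpos ?_ ?_
      · refine div_nonneg (mul_nonneg ?_ (pow_nonneg ?_ _)) h0.le
        · exact Real.iSup_nonneg fun j => apply_nonneg _ _
        · exact Real.iSup_nonneg fun j => apply_nonneg _ _
      · rw [div_le_one h0]
        exact hc2 j
  have hlow : ∀ c : ℝ, c < 4 → ∃ H₀ : ℝ, ∀ (S : Set (HeightOneSpectrum (𝓞 K)))
        (Ω : Type) [Field Ω] [Algebra K Ω] (G : MvPolynomial (Fin (n + 1)) Ω) (δ : ℕ),
        G ≠ 0 → G.IsHomogeneous δ → ∀ H E : ℝ, H₀ ≤ H → 0 ≤ E →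
        E + Module.finrank ℚ K * Real.log (max δ 1) ≤
          c * √(Module.finrank ℚ K * H) / Real.log H →
        ∃ x : Fin (n + 1) → K, (∀ i, ∑ j, L i j * x j ≠ 0) ∧
          (∀ j, MvPolynomial.eval x (F j) ≠ 0) ∧
          MvPolynomial.eval (fun j => algebraMap K Ω (x j)) G ≠ 0 ∧ Height.logHeight x ≤ H ∧
          truncated S L F e x + E ≤ (1 + ∑ j, (e j : ℝ)) * Height.logHeight x := by
    intro c hc
    obtain ⟨H₀, hH₀⟩ := Pool.Agent.N698.VT.lower hn L hgp F e hF0 hF hc
    refine ⟨H₀, fun S Ω _ _ G δ hG hGδ H E hH hE hδ => ?_⟩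
    obtain ⟨x, h1, h2, h3, h4, hfin, h5⟩ := hH₀ G δ hG hGδ H E hH hE hδ
    refine ⟨x, h1, h2, h3, h4, ?_⟩
    have hfin' : {v : HeightOneSpectrum (𝓞 K) | v ∉ S ∧
        0 < ∑ i, weil v (L i) x + ∑ j, weilForm v (F j) (e j) x}.Finite :=
      hfin.subset fun v hv => hcond x h1 h2 v hv.2
    have htr : truncated S L F e x = ∑ v ∈ hfin'.toFinset, Pool.Agent.W231.V.ell v := by
      unfold truncated
      rw [finsum_mem_eq_finite_toFinset_sum _ hfin']
      rfl
    rw [htr]
    exact h5 _ fun v hv => hcond x h1 h2 v (hfin'.mem_toFinset.1 hv).2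
  refine ⟨hlow, fun c hc => ?_⟩
  have hd1 : (1 : ℝ) ≤ Module.finrank ℚ K := by
    exact_mod_cast Module.finrank_pos (R := ℚ) (M := K)
  rcases le_or_gt c 0 with hc0 | hc0
  · refine ⟨1, one_pos, fun S Ω _ _ G δ hG hGδ ε C hε _ hC _ => ?_⟩
    have h1 : 0 ≤ Real.log (max (δ : ℝ) 1) := Real.log_nonneg (le_max_right _ _)
    have h2 : c * Module.finrank ℚ K / (ε * Real.log (1 / ε) ^ 2) ≤ 0 :=
      div_nonpos_of_nonpos_of_nonneg (mul_nonpos_of_nonpos_of_nonneg hc0 (by linarith))
        (by positivity)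
    have h3 : 0 ≤ (Module.finrank ℚ K : ℝ) * Real.log (max (δ : ℝ) 1) :=
      mul_nonneg (by linarith) h1
    linarith
  obtain ⟨H₀, hH₀⟩ := hlow (3 + c) (by linarith)
  obtain ⟨ε₀, hε₀, hcalc⟩ := Pool.Agent.N698.VT.calc_eps (Module.finrank ℚ K) hd1 H₀ hc0.le hc
  refine ⟨ε₀, hε₀, fun S Ω _ _ G δ hG hGδ ε C hε hεle hC hV => ?_⟩
  by_contra hcon
  rw [not_le] at hcon
  obtain ⟨H, hH, hHnn, hineq⟩ := hcalc ε hε hεle
  obtain ⟨x, h1, h2, h3, h4, h5⟩ := hH₀ S Ω G δ hG hGδ H (ε * H + C + 1) hH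
    (by positivity) (by linarith)
  have h6 := hV x h1 h2 h3
  have h7 : ε * Height.logHeight x ≤ ε * H := mul_le_mul_of_nonneg_left h4 hε.le
  linarith

end Pool.Agent.Results.MP_7475bd_nt.ExceptionalSetLowerBound
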