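import Pool.Agent.N760.TG.U
import Pool.Agent.Results.MP_7475bd_nt.ExceptionsOffClosedSubsets

/-!
# The `n`-term abc inequality over `ℚ` for all points whose radicals are near values of multiplicative functions

Let `f` be a positive multiplicative function of at most polynomial growth such that `f p ≤ M p` for the large primes `p`,
with different values at different large primes; for example Euler's function or the sum of the divisors. Let `G` have steps
bounded below by a positive constant and growth at most `v ^ d`, for example `G v = v`. Let `n ≥ 3`, `A > 1 / n`, `M > 1 / n`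
(for example `M = 1 + ε`) and `c` real. There is `ν > 0` such that, if `κ ≥ 0` and `d ((n - 1) / n - ν) + κ < 1`, the
following holds for all `m ≤ N` but `N / (log N) ^ U`: ALL points `z` over `ℚ` of the hyperplane `z_1 + ⋯ + z_n = 0` with
nonzero coordinates, of height at most the `A`-th power of the product `R(z)` of the radicals of the coordinates, and with
`|R(z) - G (f m)| ≤ f(m) ^ κ`, satisfy `h(z) < M rad(z) + c`. There are `X ^ ((n - 1) / n + o(1))` points with `R(z) ≤ X`, so
that the windows with `d (n - 1) / n + κ > 1` contain many points. The values of `f` are in general taken with very large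
multiplicities, and so this does not follow from the number of exceptional points.
-/

set_option autoImplicit false

namespace Pool.Agent.Results.MP_7475bd_nt.MultiplicativeValues

open Finset
open Pool.Agent.N733.TG (LM Expanding lm_totient lm_sigma expanding_pow)

/-- `h(P) = log max |z_i|` for a point `P` with coprime integer coordinates `z` -/
noncomputable def h {n : ℕ} (z : Fin n → ℤ) : ℝ :=
  Real.log ((univ.sup fun j => (z j).natAbs : ℕ) : ℝ)

open scoped Classical in
/-- `rad(P)`: the sum of `log p` over the primes `p` for which the `ord_p (z_i)` are not all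
equal (for nonzero integers `z_i` such a prime divides one of them) -/
noncomputable def rad {n : ℕ} (z : Fin n → ℤ) : ℝ :=
  ∑ p ∈ (∏ i, z i).natAbs.primeFactors.filter
    (fun p => ∃ i j, padicValInt p (z i) ≠ padicValInt p (z j)), Real.log p

/-- the product of the radicals of the coordinates -/
def prodRad {n : ℕ} (z : Fin n → ℤ) : ℕ := ∏ i, ∏ p ∈ (z i).natAbs.primeFactors, p

/-- the points over `ℚ` of the hyperplane `z_1 + ... + z_n = 0` with nonzero coordinates (every point is given by its two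
vectors of coprime integer coordinates), of height at most the `A`-th power of the product of the radicals of the
coordinates -/
def Point {n : ℕ} (A : ℝ) (z : Fin n → ℤ) : Prop :=
  univ.gcd z = 1 ∧ ∑ i, z i = 0 ∧ (∀ i, z i ≠ 0) ∧ h z ≤ A * Real.log (prodRad z)

lemma log_prodRad {n : ℕ} (z : Fin n → ℤ) :
    Real.log (prodRad z) = ∑ i, ExceptionsOffClosedSubsets.logRad (z i) := by
  unfold prodRad ExceptionsOffClosedSubsets.logRad
  rw [Nat.cast_prod, Real.log_prod]
  · refine Finset.sum_congr rfl fun i _ => ?_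
    rw [Nat.cast_prod, Real.log_prod]
    intro p hp
    exact_mod_cast (Nat.prime_of_mem_primeFactors hp).pos.ne'
  · intro i _
    have : 0 < ∏ p ∈ (z i).natAbs.primeFactors, p :=
      Finset.prod_pos fun p hp => (Nat.prime_of_mem_primeFactors hp).pos
    exact_mod_cast this.ne'

lemma prodRad_pos {n : ℕ} (z : Fin n → ℤ) : 0 < prodRad z :=
  Finset.prod_pos fun _ _ => Finset.prod_pos fun _ hp => (Nat.prime_of_mem_primeFactors hp).pos

/-- **Theorem.** Let `n ≥ 3`, `A > 1 / n`, `M > 1 / n` and `c` real. There is `ν > 0` such that for all multiplicative and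
positive `f`, of at most polynomial growth, with `f p ≤ M' p` at the large primes, and injective there, all `G` with steps
`≥ a > 0` and growth at most `v ^ d`, all `κ ≥ 0` with `d ((n - 1) / n - ν) + κ < 1` and all `U`, for all large `N`: for all
`m ≤ N` but `N / (log N) ^ U`, ALL points `z` (`Point`) with `|R(z) - G (f m)| ≤ f(m) ^ κ`, `R(z)` the product of the radicals
of the coordinates, satisfy `h(z) < M rad(z) + c`. Euler's function and the sum of the divisors are examples of such functions
`f`, and `α v ^ d` with `α > 0`, `d ≥ 1` is an example of `G`. -/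
theorem result :
    (∀ n : ℕ, 3 ≤ n → ∀ A M c : ℝ, (1 : ℝ) / n < A → (1 : ℝ) / n < M → ∃ ν : ℝ, 0 < ν ∧
      ∀ f : ℕ → ℕ, LM f → ∀ (G : ℕ → ℝ) (d κ : ℝ), Expanding G d → 0 ≤ κ → d * (((n : ℝ) - 1) / n - ν) + κ < 1 →
      ∀ U : ℕ, ∃ N₀ : ℕ, ∀ N : ℕ, N₀ ≤ N →
        ({m : ℕ | 1 ≤ m ∧ m ≤ N ∧ ¬ ∀ z : Fin n → ℤ, Point A z →
          |(prodRad z : ℝ) - G (f m)| ≤ (f m : ℝ) ^ κ → h z < M * rad z + c}.ncard : ℝ) ≤ N / Real.log N ^ U) ∧
    (LM Nat.totient ∧ LM (fun m => ∑ d ∈ m.divisors, d)) ∧
    ∀ α d : ℝ, 0 < α → 1 ≤ d → Expanding (fun v => α * (v : ℝ) ^ d) d := by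
  refine ⟨fun n hn A M c hA hM => ?_, ⟨lm_totient, lm_sigma⟩, fun α d hα hd => expanding_pow hα hd⟩
  have hn' : (3 : ℝ) ≤ n := by exact_mod_cast hn
  have hn0 : (0 : ℝ) < 1 / n := by positivity
  have hA0 : 0 < A := hn0.trans hA
  obtain ⟨h1, -, h2, -⟩ := ExceptionsOffClosedSubsets.result n hn A hA
  obtain ⟨ν, hν, C, hC⟩ := h2 M hM c
  have hg : 0 < ((n : ℝ) - 1) / n := div_pos (by linarith) (by linarith)
  obtain ⟨ν', hν'⟩ : ∃ ν', ν' = min ν (((n : ℝ) - 1) / n) := ⟨_, rfl⟩
  have hν'0 : 0 < ν' := by rw [hν']; exact lt_min hν hg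
  have hν'1 : ν' ≤ ν := by rw [hν']; exact min_le_left _ _
  have hν'2 : ν' ≤ ((n : ℝ) - 1) / n := by rw [hν']; exact min_le_right _ _
  refine ⟨ν', hν'0, fun f hf G d κ hG hκ h3 U => ?_⟩
  obtain ⟨N₀, hN₀⟩ := Pool.Agent.N760.TG.keep_windows_unif (fun z : Fin n → ℤ => ((prodRad z : ℕ) : ℝ)) hf hG
    (s := ((n : ℝ) - 1) / n - ν') (by linarith) hκ h3 |C| U
  refine ⟨N₀, fun N hN => ?_⟩
  have h4 := hN₀ {z : Fin n → ℤ | Point A z ∧ ¬ h z < M * rad z + c} (fun X hX => ?_) N hN
  · refine le_trans (le_of_eq ?_) h4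
    congr 2
    ext m
    simp only [Set.mem_ofPred_eq]
    push Not
    constructor
    · rintro ⟨a1, a2, z, a3, a4, a5⟩
      exact ⟨a1, a2, z, ⟨a3, a5⟩, a4⟩
    · rintro ⟨a1, a2, z, ⟨a3, a5⟩, a4⟩
      exact ⟨a1, a2, z, a3, a4, a5⟩
  · have hsub : {z : Fin n → ℤ | z ∈ {z : Fin n → ℤ | Point A z ∧ ¬ h z < M * rad z + c} ∧ ((prodRad z : ℕ) : ℝ) ≤ X} ⊆
        ExceptionsOffClosedSubsets.Exceptions n A M c X := by
      rintro z ⟨⟨⟨g1, g2, g3, g4⟩, g5⟩, g6⟩
      have h5 : Real.log (prodRad z) ≤ Real.log X :=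
        Real.log_le_log (by exact_mod_cast prodRad_pos z) g6
      refine ⟨⟨g1, g2, g3, ?_, ?_⟩, ?_⟩
      · exact g4.trans (mul_le_mul_of_nonneg_left h5 hA0.le)
      · rw [← log_prodRad]
        exact h5
      · exact not_lt.1 g5
    have hfin : (ExceptionsOffClosedSubsets.Exceptions n A M c X).Finite := (h1 X).subset fun z hz => hz.1
    refine ⟨hfin.subset hsub, ?_⟩
    have h5 : ((ExceptionsOffClosedSubsets.Exceptions n A M c X).ncard : ℝ) ≤ |C| * X ^ (((n : ℝ) - 1) / n - ν') := by
      refine (hC X hX).trans ?_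
      have e1 : X ^ (((n : ℝ) - 1) / n - ν) ≤ X ^ (((n : ℝ) - 1) / n - ν') :=
        Real.rpow_le_rpow_of_exponent_le hX (by linarith)
      have e2 : 0 < X ^ (((n : ℝ) - 1) / n - ν) := by positivity
      calc C * X ^ (((n : ℝ) - 1) / n - ν) ≤ |C| * X ^ (((n : ℝ) - 1) / n - ν) :=
            mul_le_mul_of_nonneg_right (le_abs_self C) e2.le
        _ ≤ _ := mul_le_mul_of_nonneg_left e1 (abs_nonneg C)
    refine le_trans ?_ h5
    exact_mod_cast Set.ncard_le_ncard hsub hfin

end Pool.Agent.Results.MP_7475bd_nt.MultiplicativeValues
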