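import Pool.Agent.N671.DA.Win
import Pool.Agent.Results.MP_7475bd_nt.ExceptionsOffClosedSubsets

/-!
# The `n`-term abc inequality over `ℚ` for all points whose radicals are near functions of the denominators of good approximations

Let `n ≥ 3`, `A > 1 / n`, `M > 1 / n` (for example `M = 1 + ε`) and `c` real. Let `α_1, …, α_m` be real numbers. We consider the
natural numbers `q` with `‖q α_j - β_j‖ ≤ c' q^(-τ)` for all `j`, `‖x‖` the distance to the nearest integer; for `β = 0`,
`c' = 1`, `τ = 1 / m` these include the denominators of all best simultaneous approximations (the denominators of the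
convergents for `m = 1`). They form a very sparse sequence, with gaps growing exponentially for almost all `α` if `τ = 1 / m`.
We show: there is `ν > 0` such that, for every function `G` with steps bounded below by a positive constant and growth at most
`v ^ d`, for example `a v ^ d`, for all `α` in `ℝ ^ m` outside a set of Hausdorff dimension at most
`(m + d ((n - 1) / n - ν) + κ) / (1 + τ)`, and all `c'`, for all but finitely many such `q`: ALL points `z` over `ℚ` of the
hyperplane `z_1 + ⋯ + z_n = 0` with nonzero coordinates, of height at most the `A`-th power of the product `R(z)` of the radicals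
of the coordinates, and with `|R(z) - G q| ≤ q ^ κ`, satisfy `h(z) < M rad(z) + c`. For `τ = 1 / m` the dimension is less than
`m` if `d ((n - 1) / n - ν) + κ < 1`, and so this holds for almost all `α`; there are `X ^ ((n - 1) / n + o(1))` points with
`R(z) ≤ X`, so that the windows with `d (n - 1) / n + κ > 1` contain many points.

Proof. The `q` such that some exceptional point has `R(z)` near `G q` form a set with `O(X ^ (d ((n - 1) / n - ν) + κ))` elements
up to `X`, by the starting theorem `ExceptionsOffClosedSubsets` of this problem; and the `α` with `‖q α_j - β_j‖ ≤ c' q^(-τ)` for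
all `j` and infinitely many `q` of such a set are covered by few small cubes.
-/

set_option autoImplicit false

namespace Pool.Agent.Results.MP_7475bd_nt.SimultaneousApproximations

open Finset
open Pool.Agent.N671.DA (Solves Expanding expanding_pow approx_good)

/-- `h(P) = log max |z_i|` for a point `P` with coprime integer coordinates `z` -/
noncomputable def h {n : ℕ} (z : Fin n → ℤ) : ℝ :=
  Real.log ((univ.sup fun j => (z j).natAbs : ℕ) : ℝ)

open scoped Classical in
/-- `rad(P)`: the sum of `log p` over the primes `p` for which the `ord_p (z_i)` are not all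
equal (for nonzero integers `z_i` such a prime divides one of them) -/
noncomputable def rad {n : ℕ} (z : Fin n → ℤ) : ℝ :=
  ∑ p ∈ (∏ i, z i).natAbs.primeFactors.filter
    (fun p => ∃ i j, padicValInt p (z i) ≠ padicValInt p (z j)), Real.log p

/-- the product of the radicals of the coordinates -/
def prodRad {n : ℕ} (z : Fin n → ℤ) : ℕ := ∏ i, ∏ p ∈ (z i).natAbs.primeFactors, p

/-- the points over `ℚ` of the hyperplane `z_1 + ... + z_n = 0` with nonzero coordinates (every point is given by its two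
vectors of coprime integer coordinates), of height at most the `A`-th power of the product of the radicals of the
coordinates -/
def Point {n : ℕ} (A : ℝ) (z : Fin n → ℤ) : Prop :=
  univ.gcd z = 1 ∧ ∑ i, z i = 0 ∧ (∀ i, z i ≠ 0) ∧ h z ≤ A * Real.log (prodRad z)

lemma log_prodRad {n : ℕ} (z : Fin n → ℤ) :
    Real.log (prodRad z) = ∑ i, ExceptionsOffClosedSubsets.logRad (z i) := by
  unfold prodRad ExceptionsOffClosedSubsets.logRad
  rw [Nat.cast_prod, Real.log_prod]
  · refine Finset.sum_congr rfl fun i _ => ?_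
    rw [Nat.cast_prod, Real.log_prod]
    intro p hp
    exact_mod_cast (Nat.prime_of_mem_primeFactors hp).pos.ne'
  · intro i _
    have : 0 < ∏ p ∈ (z i).natAbs.primeFactors, p :=
      Finset.prod_pos fun p hp => (Nat.prime_of_mem_primeFactors hp).pos
    exact_mod_cast this.ne'

lemma prodRad_pos {n : ℕ} (z : Fin n → ℤ) : 0 < prodRad z :=
  Finset.prod_pos fun _ _ => Finset.prod_pos fun _ hp => (Nat.prime_of_mem_primeFactors hp).pos

/-- **Theorem.** Let `n ≥ 3`, `A > 1 / n`, `M > 1 / n` and `c` real. There is `0 < ν ≤ (n - 1) / n` with the following property.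
Let `G` have steps `≥ a > 0` and growth at most `v ^ d`. Let `0 ≤ κ ≤ 1`, `β` in `ℝ ^ m` and `τ > 0`. For all `α` in `ℝ ^ m`
outside a set of Hausdorff dimension at most `(m + d ((n - 1) / n - ν) + κ) / (1 + τ)` and all `c'`, for all large `q` with
`‖q α_j - β_j‖ ≤ c' q^(-τ)` for all `j`, ALL points `z` (`Point`) with `|R(z) - G q| ≤ q ^ κ`, `R(z)` the product of the
radicals of the coordinates, satisfy `h(z) < M rad(z) + c`. The functions `a v ^ d` with `a > 0`, `d ≥ 1` are examples of
`G`. -/
theorem result :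
    (∀ n : ℕ, 3 ≤ n → ∀ A M c : ℝ, (1 : ℝ) / n < A → (1 : ℝ) / n < M →
      ∃ ν : ℝ, 0 < ν ∧ ν ≤ ((n : ℝ) - 1) / n ∧
      ∀ (G : ℕ → ℝ) (d : ℝ), Expanding G d → ∀ κ : ℝ, 0 ≤ κ → κ ≤ 1 →
      ∀ (m : ℕ) (β : Fin m → ℝ) (τ : ℝ), 0 < τ →
      ∃ E : Set (Fin m → ℝ), dimH E ≤ ENNReal.ofReal ((m + (d * (((n : ℝ) - 1) / n - ν) + κ)) / (1 + τ)) ∧
        ∀ α, α ∉ E → ∀ c' : ℝ, ∃ Q : ℕ, ∀ q : ℕ, Q ≤ q → Solves α β q (c' * (q : ℝ) ^ (-τ)) →
          ∀ z : Fin n → ℤ, Point A z → |(prodRad z : ℝ) - G q| ≤ (q : ℝ) ^ κ → h z < M * rad z + c) ∧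
    ∀ a d : ℝ, 0 < a → 1 ≤ d → Expanding (fun v => a * (v : ℝ) ^ d) d := by
  refine ⟨fun n hn A M c hA hM => ?_, fun a d ha hd => expanding_pow ha hd⟩
  have hn' : (3 : ℝ) ≤ n := by exact_mod_cast hn
  have hn0 : (0 : ℝ) < 1 / n := by positivity
  have hA0 : 0 < A := hn0.trans hA
  obtain ⟨h1, -, h2, -⟩ := ExceptionsOffClosedSubsets.result n hn A hA
  obtain ⟨ν, hν, C, hC⟩ := h2 M hM c
  have hg : 0 < ((n : ℝ) - 1) / n := div_pos (by linarith) (by linarith)
  obtain ⟨ν', hν'⟩ : ∃ ν', ν' = min ν (((n : ℝ) - 1) / n) := ⟨_, rfl⟩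
  have hν'0 : 0 < ν' := by rw [hν']; exact lt_min hν hg
  have hν'1 : ν' ≤ ν := by rw [hν']; exact min_le_left _ _
  have hν'2 : ν' ≤ ((n : ℝ) - 1) / n := by rw [hν']; exact min_le_right _ _
  refine ⟨ν', hν'0, hν'2, fun G d hG κ hκ hκ1 m β τ hτ => ?_⟩
  refine approx_good (Point (n := n) A) (fun z => h z < M * rad z + c) (fun z : Fin n → ℤ => ((prodRad z : ℕ) : ℝ)) hG
    (s := ((n : ℝ) - 1) / n - ν') (κ := κ) (by linarith) hκ hκ1 (fun δ hδ => ?_) β hτ
  refine ⟨|C|, fun X hX => ?_⟩
  have hsub : {z : Fin n → ℤ | (Point A z ∧ ¬ h z < M * rad z + c) ∧ ((prodRad z : ℕ) : ℝ) ≤ X} ⊆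
      ExceptionsOffClosedSubsets.Exceptions n A M c X := by
    rintro z ⟨⟨⟨g1, g2, g3, g4⟩, g5⟩, g6⟩
    have h5 : Real.log (prodRad z) ≤ Real.log X :=
      Real.log_le_log (by exact_mod_cast prodRad_pos z) g6
    refine ⟨⟨g1, g2, g3, ?_, ?_⟩, ?_⟩
    · exact g4.trans (mul_le_mul_of_nonneg_left h5 hA0.le)
    · rw [← log_prodRad]
      exact h5
    · exact not_lt.1 g5
  have hfin : (ExceptionsOffClosedSubsets.Exceptions n A M c X).Finite := (h1 X).subset fun z hz => hz.1
  refine ⟨hfin.subset hsub, ?_⟩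
  have h5 : ((ExceptionsOffClosedSubsets.Exceptions n A M c X).ncard : ℝ) ≤
      |C| * X ^ (((n : ℝ) - 1) / n - ν' + δ) := by
    refine (hC X hX).trans ?_
    have e1 : X ^ (((n : ℝ) - 1) / n - ν) ≤ X ^ (((n : ℝ) - 1) / n - ν' + δ) :=
      Real.rpow_le_rpow_of_exponent_le hX (by linarith)
    have e2 : 0 < X ^ (((n : ℝ) - 1) / n - ν) := by positivity
    calc C * X ^ (((n : ℝ) - 1) / n - ν) ≤ |C| * X ^ (((n : ℝ) - 1) / n - ν) :=
          mul_le_mul_of_nonneg_right (le_abs_self C) e2.le
      _ ≤ _ := mul_le_mul_of_nonneg_left e1 (abs_nonneg C)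
  refine le_trans ?_ h5
  exact_mod_cast Set.ncard_le_ncard hsub hfin

end Pool.Agent.Results.MP_7475bd_nt.SimultaneousApproximations
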