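import Pool.Agent.N756.GP.Gen

/-! The n-term abc inequality over a function field `K` of one variable over `k`, for points whose
ratios of coordinates generate a field of transcendence degree at least `m` over the rationals: the
factor in front of the radical is `(n - m)(n - m - 1)/2`, in particular it is `1` for points that
lie on no proper closed subset of the hyperplane defined over the rationals. -/

set_option autoImplicit false

open FF Pool.Agent.N756.GP

namespace Pool.Agent.Results.MP_7475bd_nt.TranscendenceDegree

universe u v

/-- Let `K` be a function field of one variable over a field `k` of characteristic zero, and let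
`P = (z_1, …, z_n)` be a point of the hyperplane `Z_1 + … + Z_n = 0` over `K` with nonzero
coordinates, `n ≥ 3`. Suppose that `m` of the ratios `z_i / z_j` are algebraically independent over
`ℚ` and, if `m < n - 2`, that `P` lies in no proper linear subspace of the hyperplane defined over
the algebraic numbers. Then
`h(P) ≤ (n - m)(n - m - 1)/2 * max(0, rad(P) + 2 g - 2)`, where `2 g - 2` is the canonical degree,
computed with an arbitrary nonzero rational vector field `D`. -/
theorem result {k : Type u} {K : Type v} [Field k] [Field K] [Algebra k K] [CharZero k]
    [CharZero K] [IsFF k K] (D : Derivation k K K) (hD : D ≠ 0)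
    {n m : ℕ} (hn : 3 ≤ n) (z : Fin n → K) (hz : ∀ i, z i ≠ 0)
    (hsum : ∑ i, z i = 0) (x : Fin m → Fin n × Fin n)
    (hx : AlgebraicIndependent ℚ fun l => z (x l).1 / z (x l).2)
    (hlin : m + 2 < n → ∀ c : Fin n → K, (∀ i, IsAlgebraic ℚ (c i)) → ∑ i, c i * z i = 0 →
      ∀ i j, c i = c j) :
    height k z ≤ ((n - m).choose 2 : ℤ) * max 0 (radical k z - fieldDegree D) :=
  bound_trdeg' z hn hz hsum x hx hlin hD

end Pool.Agent.Results.MP_7475bd_nt.TranscendenceDegree
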